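import Pool.Agent.W751.CV.Stm

/-!
# Three measurable sets of coefficient vectors
-/

set_option autoImplicit false

open Polynomial Filter Topology MeasureTheory

namespace Pool.Agent.W636.CV

open Pool.Agent.W751.CV

lemma poly_eval {N : ℕ} (a : Fin N → ℂ) (c : ℂ) :
    (poly a).eval c = c ^ N + ∑ k : Fin N, a k * c ^ (k : ℕ) := by
  simp [poly, eval_finsetSum]

lemma poly_deriv_eval {N : ℕ} (a : Fin N → ℂ) (c : ℂ) :
    (derivative (poly a)).eval c =
      (N : ℂ) * c ^ (N - 1) + ∑ k : Fin N, a k * ((k : ℕ) * c ^ ((k : ℕ) - 1)) := by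
  simp [poly, eval_finsetSum, derivative_X_pow]

lemma cont1 (N : ℕ) : Continuous fun q : (Fin N → ℂ) × ℂ => (poly q.1).eval q.2 := by
  simp only [poly_eval]
  exact (continuous_snd.pow N).add (continuous_finsetSum _ fun k _ =>
    ((continuous_apply k).comp continuous_fst).mul (continuous_snd.pow _))

lemma cont2 (N : ℕ) : Continuous fun q : (Fin N → ℂ) × ℂ => (derivative (poly q.1)).eval q.2 := by
  simp only [poly_deriv_eval]
  exact (continuous_const.mul (continuous_snd.pow _)).add (continuous_finsetSum _ fun k _ =>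
    ((continuous_apply k).comp continuous_fst).mul (continuous_const.mul (continuous_snd.pow _)))

lemma closed_proj {N : ℕ} (r : ℝ) (S : Set ((Fin N → ℂ) × ℂ)) (hS : IsClosed S) :
    IsClosed {a : Fin N → ℂ | ∃ c : ℂ, ‖c‖ ≤ r ∧ (a, c) ∈ S} := by
  have : CompactSpace (Metric.closedBall (0 : ℂ) r) :=
    isCompact_iff_compactSpace.mp (isCompact_closedBall 0 r)
  have h1 : IsClosed {q : (Fin N → ℂ) × (Metric.closedBall (0 : ℂ) r) | (q.1, (q.2 : ℂ)) ∈ S} :=
    hS.preimage (continuous_fst.prodMk (continuous_subtype_val.comp continuous_snd))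
  have h2 := isClosedMap_fst_of_compactSpace _ h1
  convert h2 using 1
  ext a
  constructor
  · rintro ⟨c, hc, h⟩
    exact ⟨(a, ⟨c, by simpa using hc⟩), h, rfl⟩
  · rintro ⟨⟨a', c, hc⟩, h, rfl⟩
    exact ⟨c, by simpa using hc, h⟩

theorem meas : S_MEAS := by
  intro N r R η
  refine ⟨?_, ?_, ?_⟩
  · exact (closed_proj r {q | (derivative (poly q.1)).eval q.2 = 0 ∧ ‖(poly q.1).eval q.2‖ ≤ R}
      ((isClosed_eq (cont2 N) continuous_const).inter
        (isClosed_le (cont1 N).norm continuous_const))).measurableSet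
  · intro p
    have : {a : Fin N → ℂ | ∃ w : ℂ, ‖w - p‖ ≤ r ∧ η < ‖(poly a).eval w‖} =
        ⋃ w : ℂ, ⋃ _ : ‖w - p‖ ≤ r, {a : Fin N → ℂ | η < ‖(poly a).eval w‖} := by
      ext a
      simp
    rw [this]
    refine IsOpen.measurableSet (isOpen_iUnion fun w => isOpen_iUnion fun _ => ?_)
    exact isOpen_lt continuous_const
      ((cont1 N).comp (continuous_id.prodMk continuous_const)).norm
  · exact (closed_proj r {q | ‖(poly q.1).eval q.2‖ ≤ R}
      (isClosed_le (cont1 N).norm continuous_const)).measurableSet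

end Pool.Agent.W636.CV
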